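import Pool.Agent.H25.HK.Targets

set_option autoImplicit false

open MeasureTheory Set Filter Complex

namespace Pool.Agent.H3.HK

open Pool.Agent.H25.HK

section
open scoped MatrixOrder ComplexOrder Matrix.Norms.L2Operator

lemma exists_factor {ι : Type} [Fintype ι] [DecidableEq ι] (S : Matrix ι ι ℝ) (hS : S.PosDef) :
    ∃ A : Matrix ι ι ℝ, A.det ≠ 0 ∧ S = A.transpose * A := by
  obtain ⟨A, hA⟩ := CStarAlgebra.nonneg_iff_eq_star_mul_self.mp hS.posSemidef.nonneg
  have h2 : S = A.transpose * A := by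
    rw [hA]
    rfl
  refine ⟨A, ?_, h2⟩
  intro h
  have := hS.det_pos
  rw [h2, Matrix.det_mul, h, mul_zero] at this
  exact lt_irrefl _ this

end

lemma qf_eq {ι : Type} [Fintype ι] (S : Matrix ι ι ℝ) (x : ι → ℝ) :
    qf S x = x ⬝ᵥ S.mulVec x := by
  simp only [qf, dotProduct, Matrix.mulVec, Finset.mul_sum, mul_assoc]

lemma qf_factor {ι : Type} [Fintype ι] (A : Matrix ι ι ℝ) (x : ι → ℝ) :
    qf (A.transpose * A) x = ∑ i, (A.mulVec x i) ^ 2 := by
  rw [qf_eq, ← Matrix.mulVec_mulVec, Matrix.mulVec_transpose, dotProduct_comm,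
    ← Matrix.dotProduct_mulVec]
  simp only [dotProduct, sq]

/-- substitution -/
lemma subst {ι : Type} [Fintype ι] [DecidableEq ι] (A : Matrix ι ι ℝ) (hA : A.det ≠ 0)
    (f : (ι → ℝ) → ℂ) (hf : Integrable f) :
    Integrable (fun x => f (A.mulVec x)) ∧
      ∫ x, f (A.mulVec x) = ((|A.det|)⁻¹ : ℝ) * ∫ v, f v := by
  have h1 := Real.map_matrix_volume_pi_eq_smul_volume_pi hA
  have hm : Measurable (Matrix.toLin' A) := (Matrix.toLin' A).continuous_of_finiteDimensional.measurable
  have hne : ENNReal.ofReal |A.det⁻¹| ≠ ⊤ := ENNReal.ofReal_ne_top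
  have hfm : Integrable f (Measure.map (Matrix.toLin' A) volume) := by
    rw [h1]
    exact hf.smul_measure hne
  refine ⟨?_, ?_⟩
  · exact (integrable_map_measure hfm.1 hm.aemeasurable).1 hfm
  · have := integral_map hm.aemeasurable hfm.1 
    rw [h1, integral_smul_measure, ENNReal.toReal_ofReal (abs_nonneg _), abs_inv] at this
    change ∫ x, f (Matrix.toLin' A x) = _
    rw [← this]
    simp

theorem ga : T_GA := by
  intro ι _ _ S hS k
  obtain ⟨A, hA, rfl⟩ := exists_factor S hS
  have hAu : IsUnit A.det := hA.isUnit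
  set w : ι → ℝ := (A⁻¹).transpose.mulVec k with hw
  have hkx : ∀ x, ∑ i, k i * x i = ∑ i, w i * (A.mulVec x) i := by
    intro x
    change k ⬝ᵥ x = w ⬝ᵥ A.mulVec x
    rw [hw, Matrix.mulVec_transpose, ← Matrix.dotProduct_mulVec, Matrix.mulVec_mulVec,
      Matrix.nonsing_inv_mul _ hAu, Matrix.one_mulVec]
  have hq : qf (A.transpose * A)⁻¹ k = ∑ i, w i ^ 2 := by
    rw [Matrix.mul_inv_rev, ← Matrix.transpose_nonsing_inv]
    have := qf_factor (A⁻¹).transpose k
    rw [Matrix.transpose_transpose] at this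
    exact this
  -- the Gaussian
  have hpi : (0 : ℝ) < ((Real.pi : ℝ) : ℂ).re := by
    simpa using Real.pi_pos
  have hint := GaussianFourier.integrable_cexp_neg_mul_sum_add (ι := ι) hpi (fun i => -(2 * Real.pi * w i * I))
  have hval := GaussianFourier.integral_cexp_neg_mul_sum_add (ι := ι) hpi (fun i => -(2 * Real.pi * w i * I))
  set f : (ι → ℝ) → ℂ := fun v => cexp (-(Real.pi : ℂ) * ∑ i, (v i : ℂ) ^ 2 +
    ∑ i, -(2 * Real.pi * w i * I) * v i) with hf
  have hfx : ∀ x, cexp (-(2 * Real.pi * (∑ i, k i * x i) : ℝ) * I) *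
        (Real.exp (-Real.pi * qf (A.transpose * A) x) : ℝ) = f (A.mulVec x) := by
    intro x
    rw [qf_factor, hkx, hf, Complex.ofReal_exp, ← Complex.exp_add]
    congr 1
    push_cast
    rw [add_comm]
    congr 1
    simp only [neg_mul, Finset.mul_sum, Finset.sum_mul, Finset.sum_neg_distrib]
    congr 1
    apply Finset.sum_congr rfl
    intro i _
    ring
  obtain ⟨h3, h4⟩ := subst A hA f hint
  refine ⟨?_, ?_⟩
  · refine h3.norm.congr (Filter.Eventually.of_forall fun x => ?_)
    change ‖f (A.mulVec x)‖ = _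
    rw [← hfx, norm_mul, ← Complex.ofReal_neg, Complex.norm_exp_ofReal_mul_I, one_mul,
      Complex.norm_real,
      Real.norm_of_nonneg (Real.exp_nonneg _)]
  · rw [integral_congr_ae (Filter.Eventually.of_forall hfx), h4, hval, hq]
    have hpi0 : (Real.pi : ℂ) ≠ 0 := Complex.ofReal_ne_zero.2 Real.pi_ne_zero
    have hdet : Real.sqrt (A.transpose * A).det = |A.det| := by
      rw [Matrix.det_mul, Matrix.det_transpose, Real.sqrt_mul_self_eq_abs]
    have hsum : (∑ i, (-(2 * Real.pi * w i * I)) ^ 2) / (4 * (Real.pi : ℂ)) =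
        ((-Real.pi * ∑ i, w i ^ 2 : ℝ) : ℂ) := by
      rw [div_eq_iff (mul_ne_zero (by norm_num) hpi0)]
      push_cast
      rw [Finset.mul_sum, Finset.sum_mul]
      apply Finset.sum_congr rfl
      intro i _
      rw [neg_sq, mul_pow, mul_pow, mul_pow, Complex.I_sq]
      ring
    rw [hsum, div_self hpi0, Complex.one_cpow, one_mul, hdet, ← Complex.ofReal_exp]
    push_cast
    ring

end Pool.Agent.H3.HK
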