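import Pool.Agent.H25.HK.Targets

set_option autoImplicit false

open NumberField NumberField.InfinitePlace MeasureTheory Set Filter Complex

namespace Pool.Agent.H3.HK

open Pool.Agent.H25.HK

/-- integer combinations of a basis -/
noncomputable def latEquiv {K : Type} [Field K] [NumberField K] (M : FI K) {ι : Type} [Fintype ι]
    (b : Module.Basis ι ℚ K) (h : ∀ x : K, x ∈ M ↔ ∃ m : ι → ℤ, ∑ i, m i • b i = x) :
    (ι → ℤ) ≃ {x : K // x ∈ M} :=
  Equiv.ofBijective (fun m => ⟨∑ i, m i • b i, (h _).2 ⟨m, rfl⟩⟩) (by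
    refine ⟨fun m m' hm => ?_, fun x => ?_⟩
    · have h1 : ∑ i, m i • b i = ∑ i, m' i • b i := congrArg Subtype.val hm
      have h2 : ∑ i, ((m i : ℚ) - (m' i : ℚ)) • b i = 0 := by
        simp only [sub_smul, Finset.sum_sub_distrib, Int.cast_smul_eq_zsmul]
        rw [h1, sub_self]
      have h3 := Fintype.linearIndependent_iff.1 b.linearIndependent _ h2
      ext i
      have := h3 i
      exact_mod_cast sub_eq_zero.1 this
    · obtain ⟨m, hm⟩ := (h x).1 x.2
      exact ⟨m, Subtype.ext hm⟩)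

lemma latEquiv_apply {K : Type} [Field K] [NumberField K] (M : FI K) {ι : Type} [Fintype ι]
    (b : Module.Basis ι ℚ K) (h : ∀ x : K, x ∈ M ↔ ∃ m : ι → ℤ, ∑ i, m i • b i = x)
    (m : ι → ℤ) : ((latEquiv M b h m : {x : K // x ∈ M}) : K) = ∑ i, m i • b i := rfl

theorem th_fe (h1 : T_PO) (h2 : T_GM) (h3 : T_LB) : T_TH := by
  intro K _ _ M hM y
  obtain ⟨ι, _, _, b, b', hbb, hb, hb', hd⟩ := h3 K M hM
  obtain ⟨S, hS, hS1, hS2, hdet⟩ := h2 K ι b b' hbb y
  obtain ⟨hs, ht⟩ := h1 ι S hS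
  have hcv : 0 ≤ cv K M := mul_nonneg (Real.sqrt_nonneg _) (by exact_mod_cast FractionalIdeal.absNorm_nonneg M)
  refine ⟨?_, ?_⟩
  · rw [← (latEquiv M b hb).summable_iff]
    refine hs.congr fun m => ?_
    rw [Function.comp_apply, latEquiv_apply, hS1]
  · have e1 : th K M y = ∑' m : ι → ℤ, Real.exp (-Real.pi * qf S (fun i => (m i : ℝ))) := by
      rw [th, ← (latEquiv M b hb).tsum_eq]
      refine tsum_congr fun m => ?_
      rw [latEquiv_apply, hS1]
    have e2 : th K (du K M) (-y) =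
        ∑' m : ι → ℤ, Real.exp (-Real.pi * qf S⁻¹ (fun i => (m i : ℝ))) := by
      rw [th, ← (latEquiv (du K M) b' hb').tsum_eq]
      refine tsum_congr fun m => ?_
      rw [latEquiv_apply, hS2]
    have e3 : Real.sqrt S.det = Real.exp ((∑ v, (v.mult : ℝ) * y v) / 2) * cv K M := by
      rw [hdet, hd, Real.sqrt_mul (Real.exp_nonneg _), Real.sqrt_sq hcv, Real.exp_half]
    rw [e1, e2, ht, e3, mul_inv, ← Real.exp_neg, neg_div]

end Pool.Agent.H3.HK
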