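import Pool.Agent.H25.HK.Targets

set_option autoImplicit false

open NumberField NumberField.InfinitePlace MeasureTheory Set Filter Complex
open scoped ComplexConjugate Matrix

namespace Pool.Agent.H3.HK

open Pool.Agent.H25.HK

section
variable (K : Type) [Field K] [NumberField K]

/-- the hermitian form of `y` -/
noncomputable def Bf (y : InfinitePlace K → ℝ) (x z : K) : ℂ :=
  ∑ φ : K →+* ℂ, conj (φ x) * ((Real.exp (y (InfinitePlace.mk φ)) : ℝ) : ℂ) * φ z

lemma Bf_conj (y : InfinitePlace K → ℝ) (x z : K) : conj (Bf K y x z) = Bf K y x z := by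
  unfold Bf
  rw [map_sum]
  refine Fintype.sum_equiv
    (Function.Involutive.toPerm _ (ComplexEmbedding.involutive_conjugate K)) _ _ fun φ => ?_
  simp only [Function.Involutive.coe_toPerm, map_mul, Complex.conj_conj, Complex.conj_ofReal,
    mk_conjugate_eq, ComplexEmbedding.conjugate_coe_eq]

lemma Bf_re (y : InfinitePlace K → ℝ) (x z : K) : ((Bf K y x z).re : ℂ) = Bf K y x z :=
  Complex.conj_eq_iff_re.mp (Bf_conj K y x z)

lemma Bf_symm (y : InfinitePlace K → ℝ) (x z : K) : (Bf K y x z).re = (Bf K y z x).re := by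
  have h : conj (Bf K y x z) = Bf K y z x := by
    unfold Bf
    rw [map_sum]
    refine Finset.sum_congr rfl fun φ _ => ?_
    simp only [map_mul, Complex.conj_conj, Complex.conj_ofReal]
    ring
  rw [← h, Complex.conj_re]

lemma sum_mk (g : InfinitePlace K → ℝ) :
    ∑ φ : K →+* ℂ, g (InfinitePlace.mk φ) = ∑ v : InfinitePlace K, (v.mult : ℝ) * g v := by
  classical
  rw [← Finset.sum_fiberwise Finset.univ (fun φ : K →+* ℂ => InfinitePlace.mk φ)]
  refine Finset.sum_congr rfl fun v _ => ?_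
  rw [Finset.sum_congr rfl (g := fun _ => g v), Finset.sum_const, card_filter_mk_eq,
    nsmul_eq_mul]
  intro φ hφ
  rw [(Finset.mem_filter.mp hφ).2]

/-- the Gram matrix -/
noncomputable def Gr {ι : Type} (b : ι → K) (y : InfinitePlace K → ℝ) : Matrix ι ι ℝ :=
  fun i j => (Bf K y (b i) (b j)).re

variable {ι : Type} [Fintype ι]

lemma qf_Gr (b : ι → K) (y : InfinitePlace K → ℝ) (x : ι → ℝ) :
    qf (Gr K b y) x = ∑ φ : K →+* ℂ, Real.exp (y (InfinitePlace.mk φ)) *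
      ‖∑ i, (x i : ℂ) * φ (b i)‖ ^ 2 := by
  have h : ((qf (Gr K b y) x : ℝ) : ℂ) = ((∑ φ : K →+* ℂ, Real.exp (y (InfinitePlace.mk φ)) *
      ‖∑ i, (x i : ℂ) * φ (b i)‖ ^ 2 : ℝ) : ℂ) := by
    unfold qf Gr
    push_cast
    simp only [Bf_re]
    simp only [Bf, Finset.mul_sum, Finset.sum_mul]
    rw [Finset.sum_congr rfl (fun i _ => Finset.sum_comm), Finset.sum_comm]
    refine Finset.sum_congr rfl fun φ _ => ?_
    rw [← Complex.conj_mul' , map_sum, Finset.sum_mul_sum, Finset.mul_sum]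
    refine Finset.sum_congr rfl fun i _ => ?_
    rw [Finset.mul_sum]
    refine Finset.sum_congr rfl fun j _ => ?_
    simp only [map_mul, Complex.conj_ofReal, Complex.ofReal_exp]
    ring
  exact_mod_cast h

lemma qf_Gr_int (b : ι → K) (y : InfinitePlace K → ℝ) (m : ι → ℤ) :
    qf (Gr K b y) (fun i => (m i : ℝ)) = qK K y (∑ i, m i • b i) := by
  rw [qf_Gr, qK]
  have h1 : ∀ φ : K →+* ℂ, Real.exp (y (InfinitePlace.mk φ)) *
      ‖∑ i, (((m i : ℝ)) : ℂ) * φ (b i)‖ ^ 2 =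
      (fun v : InfinitePlace K => Real.exp (y v) * (v (∑ i, m i • b i)) ^ 2)
        (InfinitePlace.mk φ) := by
    intro φ
    simp only [InfinitePlace.apply]
    congr 3
    rw [map_sum]
    refine Finset.sum_congr rfl fun i _ => ?_
    rw [zsmul_eq_mul, map_mul, map_intCast]
    push_cast
    rfl
  rw [Finset.sum_congr rfl (fun φ _ => h1 φ),
    sum_mk K (fun v : InfinitePlace K => Real.exp (y v) * (v (∑ i, m i • b i)) ^ 2)]
  refine Finset.sum_congr rfl fun v _ => ?_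
  simp only [mul_assoc]

variable [DecidableEq ι]

/-- matrix of embeddings -/
noncomputable def Pm (e : ι ≃ (K →ₐ[ℚ] ℂ)) (b : ι → K) : Matrix ι ι ℂ := fun i j => e j (b i)

/-- the diagonal matrix -/
noncomputable def Dm (e : ι ≃ (K →ₐ[ℚ] ℂ)) (y : InfinitePlace K → ℝ) : Matrix ι ι ℂ :=
  Matrix.diagonal fun j =>
    ((Real.exp (y (InfinitePlace.mk (e j : K →+* ℂ))) : ℝ) : ℂ)

omit [DecidableEq ι] in
lemma sum_e (e : ι ≃ (K →ₐ[ℚ] ℂ)) {R : Type} [AddCommMonoid R] (g : (K →+* ℂ) → R) :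
    ∑ φ : K →+* ℂ, g φ = ∑ j, g (e j : K →+* ℂ) := by
  have h1 : ∑ φ : K →+* ℂ, g φ = ∑ ψ : K →ₐ[ℚ] ℂ, g (ψ : K →+* ℂ) :=
    Fintype.sum_equiv (RingHom.equivRatAlgHom (R := K) (S := ℂ)) _ _ fun φ => rfl
  rw [h1]
  exact (Fintype.sum_equiv e _ _ fun j => rfl).symm

lemma Gr_map (e : ι ≃ (K →ₐ[ℚ] ℂ)) (b : ι → K) (y : InfinitePlace K → ℝ) :
    (Gr K b y).map (algebraMap ℝ ℂ) =
      (Pm K e b).map conj * Dm K e y * (Pm K e b)ᵀ := by
  ext i j
  rw [Matrix.map_apply, Matrix.mul_apply]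
  show ((Bf K y (b i) (b j)).re : ℂ) = _
  rw [Bf_re, Bf, sum_e K e]
  refine Finset.sum_congr rfl fun k _ => ?_
  rw [Dm, Matrix.mul_diagonal]
  rfl

lemma Gr_map' (e : ι ≃ (K →ₐ[ℚ] ℂ)) (b : ι → K) (y : InfinitePlace K → ℝ) :
    (Gr K b y).map (algebraMap ℝ ℂ) =
      Pm K e b * Dm K e y * ((Pm K e b).map conj)ᵀ := by
  ext i j
  rw [Matrix.map_apply, Matrix.mul_apply]
  show ((Bf K y (b i) (b j)).re : ℂ) = _
  rw [Bf_re, ← Bf_conj, Bf, map_sum, sum_e K e]
  refine Finset.sum_congr rfl fun k _ => ?_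
  rw [Dm, Matrix.mul_diagonal]
  simp only [map_mul, Complex.conj_conj, Complex.conj_ofReal]
  rfl

lemma Pm_mul (e : ι ≃ (K →ₐ[ℚ] ℂ)) (b b' : ι → K)
    (h : ∀ i j, Algebra.trace ℚ K (b i * b' j) = if i = j then 1 else 0) :
    Pm K e b * (Pm K e b')ᵀ = 1 := by
  ext i j
  rw [Matrix.mul_apply, Matrix.one_apply]
  have h1 := trace_eq_sum_embeddings (K := ℚ) (L := K) ℂ (x := b i * b' j)
  rw [h] at h1
  have h2 : ∑ k, Pm K e b i k * (Pm K e b')ᵀ k j = ∑ σ : K →ₐ[ℚ] ℂ, σ (b i * b' j) := by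
    rw [← Fintype.sum_equiv e _ _ fun j => rfl]
    refine Finset.sum_congr rfl fun k _ => ?_
    rw [map_mul]
    rfl
  rw [h2, ← h1]
  split_ifs <;> simp

lemma Dm_mul (e : ι ≃ (K →ₐ[ℚ] ℂ)) (y : InfinitePlace K → ℝ) :
    Dm K e y * Dm K e (-y) = 1 := by
  rw [Dm, Dm, Matrix.diagonal_mul_diagonal, ← Matrix.diagonal_one]
  congr 1
  ext j
  rw [← Complex.ofReal_mul, Pi.neg_apply, ← Real.exp_add, add_neg_cancel, Real.exp_zero,
    Complex.ofReal_one]

lemma Gr_mul (e : ι ≃ (K →ₐ[ℚ] ℂ)) (b b' : ι → K)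
    (h : ∀ i j, Algebra.trace ℚ K (b i * b' j) = if i = j then 1 else 0)
    (y : InfinitePlace K → ℝ) : Gr K b y * Gr K b' (-y) = 1 := by
  have h1 := Pm_mul K e b b' h
  have h2 : (Pm K e b)ᵀ * Pm K e b' = 1 := by
    have h3 : (Pm K e b')ᵀ * Pm K e b = 1 := mul_eq_one_comm.mp h1
    have h4 := congrArg Matrix.transpose h3
    rwa [Matrix.transpose_mul, Matrix.transpose_transpose, Matrix.transpose_one] at h4
  have h5 : (Pm K e b).map conj * ((Pm K e b').map conj)ᵀ = 1 := by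
    have h51 : ((Pm K e b').map conj)ᵀ = ((Pm K e b')ᵀ).map conj := rfl
    rw [h51, ← Matrix.map_mul, h1, Matrix.map_one _ (map_zero _) (map_one _)]
  have h6 : ((Gr K b y) * (Gr K b' (-y))).map (algebraMap ℝ ℂ) = 1 := by
    rw [Matrix.map_mul, Gr_map K e b y, Gr_map' K e b' (-y)]
    calc (Pm K e b).map conj * Dm K e y * (Pm K e b)ᵀ *
          (Pm K e b' * Dm K e (-y) * ((Pm K e b').map conj)ᵀ)
        = (Pm K e b).map conj * Dm K e y * ((Pm K e b)ᵀ * Pm K e b') * Dm K e (-y) *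
          ((Pm K e b').map conj)ᵀ := by simp only [Matrix.mul_assoc]
      _ = (Pm K e b).map conj * (Dm K e y * Dm K e (-y)) * ((Pm K e b').map conj)ᵀ := by
          rw [h2, Matrix.mul_one, Matrix.mul_assoc _ (Dm K e y)]
      _ = 1 := by rw [Dm_mul, Matrix.mul_one, h5]
  refine Matrix.map_injective (FaithfulSMul.algebraMap_injective ℝ ℂ) ?_
  show ((Gr K b y) * (Gr K b' (-y))).map (algebraMap ℝ ℂ) = (1 : Matrix ι ι ℝ).map (algebraMap ℝ ℂ)
  rw [h6, Matrix.map_one _ (map_zero _) (map_one _)]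

lemma Gr_det (e : ι ≃ (K →ₐ[ℚ] ℂ)) (b : Module.Basis ι ℚ K) (y : InfinitePlace K → ℝ) :
    (Gr K b y).det = Real.exp (∑ v, (v.mult : ℝ) * y v) * |((Algebra.discr ℚ b : ℚ) : ℝ)| := by
  have h1 : (((Gr K b y).det : ℝ) : ℂ) = ((Gr K b y).map (algebraMap ℝ ℂ)).det := by
    have := RingHom.map_det (algebraMap ℝ ℂ) (Gr K b y)
    simpa using this
  have h2 : ((Pm K e b).map conj).det = conj (Pm K e b).det := by
    have := RingHom.map_det (starRingEnd ℂ) (Pm K e b)
    exact this.symm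
  have h3 : (Dm K e y).det = ((Real.exp (∑ v, (v.mult : ℝ) * y v) : ℝ) : ℂ) := by
    rw [Dm, Matrix.det_diagonal, ← sum_mk, sum_e K e, Real.exp_sum]
    push_cast
    rfl
  have h4 : conj (Pm K e b).det * (Pm K e b).det = ((|((Algebra.discr ℚ b : ℚ) : ℝ)| : ℝ) : ℂ) := by
    have h5 := Algebra.discr_eq_det_embeddingsMatrixReindex_pow_two ℚ ℂ b e
    have h6 : Algebra.embeddingsMatrixReindex ℚ ℂ b e = Pm K e b := by
      ext i j
      rfl
    rw [h6] at h5
    rw [Complex.conj_mul', ← Complex.ofReal_pow, ← norm_pow, ← h5]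
    congr 1
    rw [show (algebraMap ℚ ℂ) (Algebra.discr ℚ b) = (((Algebra.discr ℚ b : ℚ) : ℝ) : ℂ) by simp,
      Complex.norm_real, Real.norm_eq_abs]
  have h7 : (((Gr K b y).det : ℝ) : ℂ) =
      ((Real.exp (∑ v, (v.mult : ℝ) * y v) * |((Algebra.discr ℚ b : ℚ) : ℝ)| : ℝ) : ℂ) := by
    rw [h1, Gr_map K e b y, Matrix.det_mul, Matrix.det_mul, Matrix.det_transpose, h2, h3,
      Complex.ofReal_mul, ← h4]
    ring
  exact_mod_cast h7

end

theorem gm : T_GM := by
  intro K _ _ ι _ _ b b' h y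
  have hcard : Fintype.card ι = Fintype.card (K →ₐ[ℚ] ℂ) := by
    rw [AlgHom.card, Module.finrank_eq_card_basis b]
  let e : ι ≃ (K →ₐ[ℚ] ℂ) := Fintype.equivOfCardEq hcard
  have h' : ∀ i j, Algebra.trace ℚ K (b' i * b j) = if i = j then 1 else 0 := by
    intro i j
    rw [mul_comm, h j i]
    simp only [eq_comm]
  have hmul := Gr_mul K e b b' h y
  have hinv : (Gr K b y)⁻¹ = Gr K b' (-y) := Matrix.inv_eq_right_inv hmul
  have hmul' : Gr K b' (-y) * Gr K b y = 1 := mul_eq_one_comm.mp hmul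
  refine ⟨Gr K b y, ?_, qf_Gr_int K b y, ?_, Gr_det K e b y⟩
  · refine Matrix.PosDef.of_dotProduct_mulVec_pos ?_ ?_
    · ext i j
      show star (Gr K b y j i) = Gr K b y i j
      rw [star_trivial]
      exact Bf_symm K y (b j) (b i)
    · intro x hx
      have hq : star x ⬝ᵥ (Gr K b y *ᵥ x) = qf (Gr K b y) x := by
        simp only [dotProduct, Matrix.mulVec, qf, star_trivial, Finset.mul_sum, mul_assoc]
      rw [hq]
      have h0 : 0 ≤ qf (Gr K b y) x := by
        rw [qf_Gr]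
        exact Finset.sum_nonneg fun φ _ => mul_nonneg (Real.exp_nonneg _) (sq_nonneg _)
      refine lt_of_le_of_ne h0 fun h00 => hx ?_
      rw [qf_Gr] at h00
      have h1 := (Finset.sum_eq_zero_iff_of_nonneg (fun φ _ =>
        mul_nonneg (Real.exp_nonneg _) (sq_nonneg _))).mp h00.symm
      have h2 : ∀ φ : K →+* ℂ, ∑ i, (x i : ℂ) * φ (b i) = 0 := by
        intro φ
        have h3 := h1 φ (Finset.mem_univ φ)
        have h4 := (mul_eq_zero.mp h3).resolve_left (Real.exp_ne_zero _)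
        exact norm_eq_zero.mp (pow_eq_zero_iff (two_ne_zero) |>.mp h4)
      have h5 : Gr K b y *ᵥ x = 0 := by
        ext i
        show ∑ j, Gr K b y i j * x j = 0
        have h6 : ((∑ j, Gr K b y i j * x j : ℝ) : ℂ) = 0 := by
          push_cast
          simp only [Gr, Bf_re]
          simp only [Bf, Finset.sum_mul]
          rw [Finset.sum_comm]
          refine Finset.sum_eq_zero fun φ _ => ?_
          have h7 : ∀ j, conj (φ (b i)) * ((Real.exp (y (InfinitePlace.mk φ)) : ℝ) : ℂ) *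
              φ (b j) * (x j : ℂ) = conj (φ (b i)) *
                ((Real.exp (y (InfinitePlace.mk φ)) : ℝ) : ℂ) * ((x j : ℂ) * φ (b j)) := by
            intro j
            ring
          rw [Finset.sum_congr rfl (fun j _ => h7 j), ← Finset.mul_sum, h2, mul_zero]
        exact_mod_cast h6
      have h8 := congrArg (fun v => Gr K b' (-y) *ᵥ v) h5
      simpa [Matrix.mulVec_mulVec, hmul'] using h8
  · rw [hinv]
    exact qf_Gr_int K b' (-y)

end Pool.Agent.H3.HK
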