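import Pool.Agent.H25.HK.Targets

set_option autoImplicit false

open NumberField NumberField.InfinitePlace MeasureTheory Set Filter Complex
open scoped nonZeroDivisors

namespace Pool.Agent.H3.HK

open Pool.Agent.H25.HK Module

theorem lb : T_LB := by
  classical
  intro K _ _ M hM
  let I : (FractionalIdeal (𝓞 K)⁰ K)ˣ := Units.mk0 M hM
  have hI : (I : FI K) = M := rfl
  let b := basisOfFractionalIdeal K I
  let b' := (Algebra.traceForm ℚ K).dualBasis (traceForm_nondegenerate ℚ K) b
  have hb1 : ∀ i j, Algebra.traceForm ℚ K (b i) (b' j) = if i = j then 1 else 0 := fun i j =>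
    LinearMap.BilinForm.apply_dualBasis_right _ (Algebra.traceForm_isSymm ℚ) b i j
  have hb2 : ∀ i j, Algebra.traceForm ℚ K (b' i) (b j) = if j = i then 1 else 0 := fun i j =>
    LinearMap.BilinForm.apply_dualBasis_left _ b i j
  have hMb : ∀ x : K, x ∈ M ↔ ∃ m : Free.ChooseBasisIndex ℤ I → ℤ, ∑ i, m i • b i = x := by
    intro x
    rw [← Submodule.mem_span_range_iff_exists_fun, mem_span_basisOfFractionalIdeal]
    rfl
  refine ⟨Free.ChooseBasisIndex ℤ I, inferInstance, inferInstance, b, b', hb1, hMb, ?_, ?_⟩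
  · intro x
    rw [du, FractionalIdeal.mem_dual hM]
    constructor
    · intro h
      have h1 : ∀ i, ∃ m : ℤ, (m : ℚ) = Algebra.traceForm ℚ K x (b i) := fun i =>
        h (b i) ((hMb _).2 ⟨Pi.single i 1, by simp [Pi.single_apply]⟩)
      choose m hm using h1
      refine ⟨m, ?_⟩
      conv_rhs => rw [← b'.sum_repr x]
      refine Finset.sum_congr rfl fun i _ => ?_
      rw [LinearMap.BilinForm.dualBasis_repr_apply, ← hm i, Int.cast_smul_eq_zsmul]
    · rintro ⟨m, rfl⟩ a ha
      obtain ⟨n, rfl⟩ := (hMb a).1 ha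
      refine ⟨∑ i, m i * n i, ?_⟩
      simp only [map_sum, LinearMap.sum_apply, map_zsmul, LinearMap.smul_apply, hb2]
      simp [mul_comm]
  · let e : Free.ChooseBasisIndex ℤ (𝓞 K) ≃ Free.ChooseBasisIndex ℤ I :=
      (integralBasis K).indexEquiv b
    have h1 := det_basisOfFractionalIdeal_eq_absNorm K I e
    have h2 : Algebra.discr ℚ (b.reindex e.symm) =
        ((integralBasis K).det (b.reindex e.symm)) ^ 2 * Algebra.discr ℚ (integralBasis K) := by
      rw [Basis.det_apply, ← Algebra.discr_of_matrix_vecMul, Basis.toMatrix_map_vecMul]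
    have h3 : Algebra.discr ℚ (b.reindex e.symm) = Algebra.discr ℚ b := by
      rw [← Algebra.discr_reindex ℚ b e.symm, Basis.coe_reindex]
    rw [← h3, h2, ← coe_discr, cv, mul_pow, Real.sq_sqrt (abs_nonneg _), ← hI, ← h1]
    push_cast
    rw [abs_mul, abs_pow]
    ring

end Pool.Agent.H3.HK
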